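import Pool.Agent.H24.SCG.Base

/-!
Base change (module BCJ of the project SCG).
-/

namespace Pool.Agent.H64.SCG

open Pool.SCG Matrix

variable {F : Type} [Field F]

theorem mem_closure_image (φ : Cor F ≃* Cor F) (S : Set (Cor F)) (x : Cor F) :
    φ x ∈ Subgroup.closure (φ '' S) ↔ x ∈ Subgroup.closure S := by
  have h : Subgroup.closure (φ '' S) = (Subgroup.closure S).map φ.toMonoidHom := by
    rw [MonoidHom.map_closure]; rfl
  rw [h, Subgroup.mem_map]
  constructor
  · rintro ⟨y, hy, e⟩
    have : y = x := φ.injective e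
    rwa [← this]
  · intro hx
    exact ⟨x, hx, rfl⟩

theorem str5_image (φ : Cor F ≃* Cor F) {a b c d e : Cor F} (h : Str5 a b c d e) :
    Str5 (φ a) (φ b) (φ c) (φ d) (φ e) := by
  have k1 : ∀ x : Cor F, x ≠ 1 ∧ x * x = 1 → φ x ≠ 1 ∧ φ x * φ x = 1 := by
    rintro x ⟨h1, h2⟩
    refine ⟨?_, ?_⟩
    · intro h3
      exact h1 ((map_eq_one_iff φ φ.injective).1 h3)
    · rw [← map_mul, h2, map_one]
  have k2 : ∀ x y : Cor F, x * y = y * x → φ x * φ y = φ y * φ x := by
    intro x y h1
    rw [← map_mul, h1, map_mul]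
  have k3 : ∀ x y : Cor F, x * y ≠ y * x → φ x * φ y ≠ φ y * φ x := by
    intro x y h1 h2
    rw [← map_mul, ← map_mul] at h2
    exact h1 (φ.injective h2)
  have s4 : ∀ x y z w : Cor F, ({φ x, φ y, φ z, φ w} : Set (Cor F)) = φ '' {x, y, z, w} := by
    intro x y z w
    simp only [Set.image_insert_eq, Set.image_singleton]
  have s3 : ∀ x y z : Cor F, ({φ x, φ y, φ z} : Set (Cor F)) = φ '' {x, y, z} := by
    intro x y z
    simp only [Set.image_insert_eq, Set.image_singleton]
  have s2 : ∀ x y : Cor F, ({φ x, φ y} : Set (Cor F)) = φ '' {x, y} := by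
    intro x y
    simp only [Set.image_insert_eq, Set.image_singleton]
  exact
    { ia := k1 _ h.ia, ib := k1 _ h.ib, ic := k1 _ h.ic, id := k1 _ h.id, ie := k1 _ h.ie
      ac := k2 _ _ h.ac, ad := k2 _ _ h.ad, ae := k2 _ _ h.ae, bd := k2 _ _ h.bd
      be := k2 _ _ h.be, ce := k2 _ _ h.ce
      ab := k3 _ _ h.ab, bc := k3 _ _ h.bc, cd := k3 _ _ h.cd, de := k3 _ _ h.de
      v1 := by
        rw [s4, mem_closure_image]; exact h.v1
      v2 := by
        rw [s4, mem_closure_image]; exact h.v2
      v3 := by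
        intro x hx1 hx2
        obtain ⟨y, rfl⟩ := φ.surjective x
        rw [s2, mem_closure_image] at hx1
        rw [s3, mem_closure_image] at hx2
        rw [h.v3 y hx1 hx2, map_one]
      v4 := by
        intro x hx1 hx2
        obtain ⟨y, rfl⟩ := φ.surjective x
        rw [s2, mem_closure_image] at hx1
        rw [s3, mem_closure_image] at hx2
        rw [h.v4 y hx1 hx2, map_one] }

/-- Module BCJ. -/
theorem bcj_thm : Pool.SCG.BCJStmt := by
  intro F _ P a b c d e h
  have := str5_image (cjE P) h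
  simpa only [cjE_apply] using this

end Pool.Agent.H64.SCG
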