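import Pool.Agent.H24.SCG.Base

/-!
Disjoint eigenlines (module C2D of the project SCG).
-/

namespace Pool.Agent.H64.SCG

open Pool.SCG Matrix

variable {F : Type} [Field F]

/-- Module C2D. -/
theorem c2d_thm (hTQD : Pool.SCG.TQDStmt) : Pool.SCG.C2DStmt := by
  intro F _ _ hF X a b h e b1 b2 b3 w1 w2 α β γ haX hbX hhX ha hb hh he hq hw1 hw2 hαβ hne
  have hdet : b1 * b2 * b3 = 1 := by rw [← dg_det]; exact ha.det
  have hb1 : b1 ≠ 0 := by
    rintro rfl
    simp at hdet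
  have hb2 : b2 ≠ 0 := by
    rintro rfl
    simp at hdet
  have hb3 : b3 ≠ 0 := by
    rintro rfl
    simp at hdet
  have hinv : dg b1 b2 b3 * dg (b2 * b3) (b1 * b3) (b1 * b2) = 1 := by
    rw [dg_mul, ← dg_one]
    congr 1
    · linear_combination hdet
    · linear_combination hdet
    · linear_combination hdet
  have hab := ha.mul_outer' hb hinv
  rw [dg_transpose] at hab
  set q : F := b1 * w1 ^ 2 + b2 * w2 ^ 2 with hqdef
  have hM : dg (b2 * b3) (b1 * b3) (b1 * b2) * BM b1 b2 b3 w1 w2 α β γ =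
      !![α + (β - α) * b1 * w1 ^ 2 * q⁻¹, (β - α) * w1 * b2 * w2 * q⁻¹, 0;
         (β - α) * b1 * w1 * w2 * q⁻¹, α + (β - α) * b2 * w2 ^ 2 * q⁻¹, 0; 0, 0, γ] := by
    ext i j
    fin_cases i <;> fin_cases j <;>
      simp [dg, BM, Matrix.mul_apply, Fin.sum_univ_three, ← hqdef]
    · linear_combination (α + (β - α) * b1 * w1 ^ 2 * q⁻¹) * hdet
    · linear_combination ((β - α) * w1 * b2 * w2 * q⁻¹) * hdet
    · linear_combination ((β - α) * b1 * w1 * w2 * q⁻¹) * hdet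
    · linear_combination (α + (β - α) * b2 * w2 ^ 2 * q⁻¹) * hdet
    · linear_combination γ * hdet
  rw [hM] at hab
  have hab' : Is (a * b) false !![α + (β - α) * b1 * w1 ^ 2 * q⁻¹,
      (β - α) * w1 * b2 * w2 * q⁻¹, 0;
         (β - α) * b1 * w1 * w2 * q⁻¹, α + (β - α) * b2 * w2 ^ 2 * q⁻¹, 0; 0, 0, γ] := by
    simpa using hab
  have hy := (hh.mul_inner hab').mul_inner hh
  have hM2 : dg (1 : F) (-1) (-1) * !![α + (β - α) * b1 * w1 ^ 2 * q⁻¹,
      (β - α) * w1 * b2 * w2 * q⁻¹, 0;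
         (β - α) * b1 * w1 * w2 * q⁻¹, α + (β - α) * b2 * w2 ^ 2 * q⁻¹, 0; 0, 0, γ] *
         dg 1 (-1) (-1) =
      !![α + (β - α) * b1 * w1 ^ 2 * q⁻¹, -((β - α) * w1 * b2 * w2 * q⁻¹), 0;
         -((β - α) * b1 * w1 * w2 * q⁻¹), α + (β - α) * b2 * w2 ^ 2 * q⁻¹, 0; 0, 0, γ] := by
    ext i j
    fin_cases i <;> fin_cases j <;>
      simp [dg, Matrix.mul_apply, Fin.sum_univ_three]
  rw [hM2] at hy
  have hqi : q * q⁻¹ = 1 := mul_inv_cancel₀ hq
  have h2 := hF.1
  refine hTQD F hF.1 X (a * b) (h * (a * b) * h) e _ _ _ _ _ _ _ _ _ _ α β α β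
    ![b2 * w2, -(b1 * w1)] ![w1, w2] ![b2 * w2, b1 * w1] ![w1, -w2]
    (X.mul_mem haX hbX) (X.mul_mem (X.mul_mem hhX (X.mul_mem haX hbX)) hhX) hab' hy
    ?_ ?_ ?_ ?_ hαβ hαβ ?_ ?_ ?_ ?_ he
  · ext i
    fin_cases i
    · simp [Matrix.mulVec, dotProduct, Fin.sum_univ_two]
      ring
    · simp [Matrix.mulVec, dotProduct, Fin.sum_univ_two]
      ring
  · ext i
    fin_cases i
    · simp [Matrix.mulVec, dotProduct, Fin.sum_univ_two]
      linear_combination ((β - α) * w1) * hqi + ((β - α) * w1 * q⁻¹) * hqdef.symm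
    · simp [Matrix.mulVec, dotProduct, Fin.sum_univ_two]
      linear_combination ((β - α) * w2) * hqi + ((β - α) * w2 * q⁻¹) * hqdef.symm
  · ext i
    fin_cases i
    · simp [Matrix.mulVec, dotProduct, Fin.sum_univ_two]
      ring
    · simp [Matrix.mulVec, dotProduct, Fin.sum_univ_two]
      ring
  · ext i
    fin_cases i
    · simp [Matrix.mulVec, dotProduct, Fin.sum_univ_two]
      linear_combination ((β - α) * w1) * hqi + ((β - α) * w1 * q⁻¹) * hqdef.symm
    · simp [Matrix.mulVec, dotProduct, Fin.sum_univ_two]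
      linear_combination (-(β - α) * w2) * hqi + (-(β - α) * w2 * q⁻¹) * hqdef.symm
  · have : 2 * (b1 * b2 * w1 * w2) ≠ 0 :=
      mul_ne_zero h2 (mul_ne_zero (mul_ne_zero (mul_ne_zero hb1 hb2) hw1) hw2)
    intro h0
    apply this
    simp at h0
    linear_combination h0
  · intro h0
    simp at h0
    apply hne
    linear_combination h0
  · intro h0
    simp at h0
    apply hne
    linear_combination h0
  · have : 2 * (w1 * w2) ≠ 0 := mul_ne_zero h2 (mul_ne_zero hw1 hw2)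
    intro h0
    apply this
    simp at h0
    linear_combination -h0

end Pool.Agent.H64.SCG
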