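import Pool.Agent.H64.SCG.EXB

/-!
First intersection condition for the four generators (module EXA of the project SCG).
-/

namespace Pool.Agent.H64.SCG

open Pool.SCG Matrix

variable {F : Type} [Field F]

/-- the all-one vector -/
def uv (F : Type) [Field F] : Fin 3 → F := ![1, 1, 1]

/-- the all-one vector is mapped to itself or to its negative -/
def PM (M : M3 F) : Prop := M *ᵥ uv F = uv F ∨ M *ᵥ uv F = - uv F

theorem pm_one : PM (1 : M3 F) := Or.inl (by simp)

theorem pm_mul {M N : M3 F} (hM : PM M) (hN : PM N) : PM (M * N) := by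
  unfold PM
  rw [← Matrix.mulVec_mulVec]
  rcases hN with h | h
  · rw [h]; exact hM
  · rw [h, Matrix.mulVec_neg]
    rcases hM with h' | h'
    · rw [h']; exact Or.inr rfl
    · rw [h', neg_neg]; exact Or.inl rfl

theorem pm_adj {M : M3 F} (hd : M.det = 1) (hM : PM M) : PM (adjugate M) := by
  have e : adjugate M *ᵥ (M *ᵥ uv F) = uv F := by
    rw [Matrix.mulVec_mulVec, adj_mul_self hd, Matrix.one_mulVec]
  rcases hM with h | h
  · rw [h] at e; exact Or.inl e
  · rw [h, Matrix.mulVec_neg] at e
    right
    exact neg_eq_iff_eq_neg.1 e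

/-- both the matrix and its transpose respect the all-one vector -/
def RR (x : Cor F) : Prop := PM (x.m : M3 F) ∧ PM (x.m : M3 F).transpose

theorem rr_of_is {x : Cor F} {s : Bool} {A : M3 F} (hx : Is x s A) (h1 : PM A)
    (h2 : PM A.transpose) : RR x := by
  unfold RR
  rw [hx.2]
  exact ⟨h1, h2⟩

theorem rr_one : RR (1 : Cor F) :=
  rr_of_is is_one pm_one (by rw [Matrix.transpose_one]; exact pm_one)

theorem rr_mul_inner {x b : Cor F} {B : M3 F} (hx : RR x) (hb : Is b false B)
    (h1 : PM B) (h2 : PM B.transpose) : RR (x * b) := by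
  refine rr_of_is ((Is.self x).mul_inner hb) (pm_mul hx.1 h1) ?_
  rw [Matrix.transpose_mul]
  exact pm_mul h2 hx.2

theorem rr_mul_outer {x a : Cor F} {A : M3 F} (hx : RR x) (ha : Is a true A)
    (h1 : PM A) (h2 : PM A.transpose) : RR (x * a) := by
  have hd : (x.m : M3 F).det = 1 := (Is.self x).det
  have hd' : (x.m : M3 F).transpose.det = 1 := by rw [Matrix.det_transpose]; exact hd
  refine rr_of_is ((Is.self x).mul_outer ha) (pm_mul ?_ h1) ?_
  · rw [Matrix.adjugate_transpose]
    exact pm_adj hd' hx.2
  · rw [Matrix.transpose_mul, Matrix.transpose_transpose]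
    exact pm_mul h2 (pm_adj hd hx.1)

theorem rr_closure {a b : Cor F} {A B : M3 F} (ha : Is a true A) (hb : Is b false B)
    (hA : PM A) (hA' : PM A.transpose) (hB : PM B) (hB' : PM B.transpose)
    (haa : a * a = 1) (hbb : b * b = 1) {x : Cor F}
    (hx : x ∈ Subgroup.closure ({a, b} : Set (Cor F))) : RR x := by
  have hai : a⁻¹ = a := by rw [inv_eq_iff_mul_eq_one, haa]
  have hbi : b⁻¹ = b := by rw [inv_eq_iff_mul_eq_one, hbb]
  induction hx using Subgroup.closure_induction_right with
  | one => exact rr_one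
  | mul_right y z hz h1 h2 =>
    rcases h1 with h | h
    · rw [h]; exact rr_mul_outer h2 ha hA hA'
    · rw [Set.mem_singleton_iff] at h
      rw [h]; exact rr_mul_inner h2 hb hB hB'
  | mul_inv_cancel y z hz h1 h2 =>
    rcases h1 with h | h
    · rw [h, hai]; exact rr_mul_outer h2 ha hA hA'
    · rw [Set.mem_singleton_iff] at h
      rw [h, hbi]; exact rr_mul_inner h2 hb hB hB'

/-- Module EXA. -/
theorem exa_thm : Pool.SCG.EXAStmt := by
  intro F _ τ hF h3 hτ hτ2 a b c d hG
  have ha := hG.ha
  have hb := hG.hb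
  have hc := hG.hc
  have hd := hG.hd
  have hAt : (!![0, -1, 0; -1, 0, 0; 0, 0, -1] : M3 F).transpose =
      !![0, -1, 0; -1, 0, 0; 0, 0, -1] := by
    ext i j
    fin_cases i <;> fin_cases j <;> simp
  have hBt : (!![0, 0, -1; 0, -1, 0; -1, 0, 0] : M3 F).transpose =
      !![0, 0, -1; 0, -1, 0; -1, 0, 0] := by
    ext i j
    fin_cases i <;> fin_cases j <;> simp
  have hA : PM (!![0, -1, 0; -1, 0, 0; 0, 0, -1] : M3 F) := by
    right
    ext i
    fin_cases i <;> simp [uv, Matrix.mulVec, dotProduct, Fin.sum_univ_three]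
  have hB : PM (!![0, 0, -1; 0, -1, 0; -1, 0, 0] : M3 F) := by
    right
    ext i
    fin_cases i <;> simp [uv, Matrix.mulVec, dotProduct, Fin.sum_univ_three]
  have haa : a * a = 1 := (outer_sq_iff ha).2 hAt
  have hbb : b * b = 1 := bb_eq hb
  have hcc : c * c = 1 := cc_eq hτ hc
  have hcn : c ∉ Subgroup.closure ({a, b} : Set (Cor F)) := by
    intro hmem
    have h := (rr_closure ha hb hA (by rw [hAt]; exact hA) hB (by rw [hBt]; exact hB)
      haa hbb hmem).1
    rw [hc.2] at h
    rcases h with h | h
    · have h1 := congrFun h 1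
      simp [uv, Matrix.mulVec, dotProduct, Fin.sum_univ_three] at h1
      apply hτ2
      linear_combination (τ - 1) * (-h1)
    · have h1 := congrFun h 1
      simp [uv, Matrix.mulVec, dotProduct, Fin.sum_univ_three] at h1
      apply hτ2
      rw [h1]; ring
  refine ⟨(hb.ne_of_sign ha).symm, hb.ne_of_mat hc ?_, hc.ne_of_mat hd ?_, ?_⟩
  · intro h
    have := congrFun (congrFun h 0) 2
    simp at this
  · intro h
    have := congrFun (congrFun h 0) 2
    simp at this
    rcases this with h | h
    · exact hF.1 h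
    · exact h3 h
  · intro x hx1 hx2
    have hbm : b ∈ Subgroup.closure ({a, b} : Set (Cor F)) :=
      Subgroup.subset_closure (by simp)
    rcases six hbb hcc (bcb_eq hb hc hτ) hx2 with h | h | h | h | h | h
    · rw [h]; exact Subgroup.one_mem _
    · rw [h]; exact Subgroup.subset_closure (Set.mem_singleton b)
    · exact absurd (h ▸ hx1) hcn
    · exfalso
      rw [h] at hx1
      have := Subgroup.mul_mem _ hbm hx1
      rw [← mul_assoc, hbb, one_mul] at this
      exact hcn this
    · exfalso
      rw [h] at hx1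
      have := Subgroup.mul_mem _ hx1 hbm
      rw [mul_assoc, hbb, mul_one] at this
      exact hcn this
    · exfalso
      rw [h] at hx1
      have := Subgroup.mul_mem _ (Subgroup.mul_mem _ hbm hx1) hbm
      have e : b * (b * c * b) * b = c := by
        calc b * (b * c * b) * b = (b * b) * c * (b * b) := by simp only [mul_assoc]
          _ = c := by rw [hbb, one_mul, mul_one]
      rw [e] at this
      exact hcn this

end Pool.Agent.H64.SCG
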