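import Pool.Agent.H24.SCG.Base

/-!
Second intersection condition for the four generators (module EXB of the project SCG).
-/

namespace Pool.Agent.H64.SCG

open Pool.SCG Matrix

variable {F : Type} [Field F]

/-- the common eigenvector of `c` and `d` -/
def zv (τ : F) : Fin 3 → F := ![1, τ, -1 - τ]

/-- `x` is inner and maps `zv` to `zv` or to its negative -/
def QQ (τ : F) (x : Cor F) : Prop :=
  x.s = false ∧ ((x.m : M3 F) *ᵥ zv τ = zv τ ∨ (x.m : M3 F) *ᵥ zv τ = - zv τ)

theorem qq_of_is {τ : F} {x : Cor F} {A : M3 F} (hx : Is x false A)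
    (h : A *ᵥ zv τ = zv τ ∨ A *ᵥ zv τ = - zv τ) : QQ τ x := by
  refine ⟨hx.1, ?_⟩
  rw [hx.2]
  exact h

theorem qq_one (τ : F) : QQ τ (1 : Cor F) := by
  refine ⟨rfl, Or.inl ?_⟩
  simp

theorem qq_mul {τ : F} {x y : Cor F} (hx : QQ τ x) (hy : QQ τ y) : QQ τ (x * y) := by
  have h1 : Is x false (x.m : M3 F) := ⟨hx.1, rfl⟩
  have h2 : Is y false (y.m : M3 F) := ⟨hy.1, rfl⟩
  have h3 := h1.mul_inner h2
  refine qq_of_is h3 ?_
  rw [← Matrix.mulVec_mulVec]
  rcases hy.2 with h | h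
  · rw [h]; exact hx.2
  · rw [h, Matrix.mulVec_neg]
    rcases hx.2 with h' | h'
    · rw [h']; exact Or.inr rfl
    · rw [h', neg_neg]; exact Or.inl rfl

theorem qq_inv {τ : F} {x : Cor F} (hx : QQ τ x) : QQ τ x⁻¹ := by
  have h1 : Is x false (x.m : M3 F) := ⟨hx.1, rfl⟩
  refine qq_of_is h1.inv_inner ?_
  have e : adjugate (x.m : M3 F) *ᵥ ((x.m : M3 F) *ᵥ zv τ) = zv τ := by
    rw [Matrix.mulVec_mulVec, adj_mul_self h1.det, Matrix.one_mulVec]
  rcases hx.2 with h | h
  · rw [h] at e; exact Or.inl e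
  · rw [h, Matrix.mulVec_neg] at e
    right
    exact neg_eq_iff_eq_neg.1 e

theorem qq_c {τ : F} (hτ : τ ≠ 0) {c : Cor F}
    (hc : Is c false !![0, -τ⁻¹, 0; -τ, 0, 0; 0, 0, -1]) : QQ τ c := by
  refine qq_of_is hc (Or.inr ?_)
  ext i
  fin_cases i
  · simp [zv, Matrix.mulVec, dotProduct, Fin.sum_univ_three, hτ]
  · simp [zv, Matrix.mulVec, dotProduct, Fin.sum_univ_three]
  · simp [zv, Matrix.mulVec, dotProduct, Fin.sum_univ_three]

theorem qq_d {τ : F} {d : Cor F}
    (hd : Is d false ((2 * (3 : F)⁻¹) • !![1, 1, 1; 1, 1, 1; 1, 1, 1] - 1)) : QQ τ d := by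
  refine qq_of_is hd (Or.inr ?_)
  have h0 : (!![1, 1, 1; 1, 1, 1; 1, 1, 1] : M3 F) *ᵥ zv τ = 0 := by
    ext i
    fin_cases i <;>
      (simp [zv, Matrix.mulVec, dotProduct, Fin.sum_univ_three])
  rw [Matrix.sub_mulVec, Matrix.smul_mulVec, h0, smul_zero, Matrix.one_mulVec, zero_sub]

/-- elements of the group generated by `c` and `d` -/
theorem qq_closure {τ : F} {c d : Cor F} (hc : QQ τ c) (hd : QQ τ d) {x : Cor F}
    (hx : x ∈ Subgroup.closure ({c, d} : Set (Cor F))) : QQ τ x := by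
  induction hx using Subgroup.closure_induction with
  | mem y hy =>
    rcases hy with h | h
    · rw [h]; exact hc
    · rw [Set.mem_singleton_iff] at h
      rw [h]; exact hd
  | one => exact qq_one τ
  | mul y z _ _ h1 h2 => exact qq_mul h1 h2
  | inv y _ h => exact qq_inv h

/-- a dihedral group of order six -/
theorem six {G : Type*} [Group G] {b c : G} (hb : b * b = 1) (hc : c * c = 1)
    (hbc : b * c * b = c * b * c) {x : G} (hx : x ∈ Subgroup.closure ({b, c} : Set G)) :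
    x = 1 ∨ x = b ∨ x = c ∨ x = b * c ∨ x = c * b ∨ x = b * c * b := by
  have hbi : b⁻¹ = b := by rw [inv_eq_iff_mul_eq_one, hb]
  have hci : c⁻¹ = c := by rw [inv_eq_iff_mul_eq_one, hc]
  have kb : ∀ x : G, (x = 1 ∨ x = b ∨ x = c ∨ x = b * c ∨ x = c * b ∨ x = b * c * b) →
      (x * b = 1 ∨ x * b = b ∨ x * b = c ∨ x * b = b * c ∨ x * b = c * b ∨
        x * b = b * c * b) := by
    rintro x (h | h | h | h | h | h)
    · rw [h, one_mul]; tauto
    · rw [h, hb]; tauto
    · rw [h]; tauto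
    · rw [h]; tauto
    · rw [h, mul_assoc, hb, mul_one]; tauto
    · rw [h, mul_assoc (b * c), hb, mul_one]; tauto
  have kc : ∀ x : G, (x = 1 ∨ x = b ∨ x = c ∨ x = b * c ∨ x = c * b ∨ x = b * c * b) →
      (x * c = 1 ∨ x * c = b ∨ x * c = c ∨ x * c = b * c ∨ x * c = c * b ∨
        x * c = b * c * b) := by
    rintro x (h | h | h | h | h | h)
    · rw [h, one_mul]; tauto
    · rw [h]; tauto
    · rw [h, hc]; tauto
    · rw [h, mul_assoc, hc, mul_one]; tauto
    · rw [h, ← hbc]; tauto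
    · rw [h, hbc, mul_assoc (c * b), hc, mul_one]; tauto
  induction hx using Subgroup.closure_induction_right with
  | one => exact Or.inl rfl
  | mul_right y z hz h1 h2 =>
    rcases h1 with h | h
    · rw [h]; exact kb _ h2
    · rw [Set.mem_singleton_iff] at h
      rw [h]; exact kc _ h2
  | mul_inv_cancel y z hz h1 h2 =>
    rcases h1 with h | h
    · rw [h, hbi]; exact kb _ h2
    · rw [Set.mem_singleton_iff] at h
      rw [h, hci]; exact kc _ h2

theorem bb_eq {b : Cor F} (hb : Is b false !![0, 0, -1; 0, -1, 0; -1, 0, 0]) : b * b = 1 := by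
  rw [inner_sq_iff hb]
  ext i j
  fin_cases i <;> fin_cases j <;> simp [Matrix.mul_apply, Fin.sum_univ_three]

theorem cc_eq {τ : F} (hτ : τ ≠ 0) {c : Cor F}
    (hc : Is c false !![0, -τ⁻¹, 0; -τ, 0, 0; 0, 0, -1]) : c * c = 1 := by
  rw [inner_sq_iff hc]
  ext i j
  fin_cases i <;> fin_cases j <;> simp [Matrix.mul_apply, Fin.sum_univ_three, hτ]

theorem bcb_eq {τ : F} {b c : Cor F}
    (hb : Is b false !![0, 0, -1; 0, -1, 0; -1, 0, 0])
    (hc : Is c false !![0, -τ⁻¹, 0; -τ, 0, 0; 0, 0, -1]) (hτ : τ ≠ 0) :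
    b * c * b = c * b * c := by
  refine ((hb.mul_inner hc).mul_inner hb).ext ?_
  have h := (hc.mul_inner hb).mul_inner hc
  have e : (!![0, -τ⁻¹, 0; -τ, 0, 0; 0, 0, -1] : M3 F) * !![0, 0, -1; 0, -1, 0; -1, 0, 0] *
      !![0, -τ⁻¹, 0; -τ, 0, 0; 0, 0, -1] =
      !![0, 0, -1; 0, -1, 0; -1, 0, 0] * !![0, -τ⁻¹, 0; -τ, 0, 0; 0, 0, -1] *
      !![0, 0, -1; 0, -1, 0; -1, 0, 0] := by
    ext i j
    fin_cases i <;> fin_cases j <;> simp [Matrix.mul_apply, Fin.sum_univ_three, hτ]
  rwa [e] at h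

/-- Module EXB. -/
theorem exb_thm : Pool.SCG.EXBStmt := by
  intro F _ τ hF h3 hτ hτ2 hm2 a b c d hG x hx1 hx2
  have hb := hG.hb
  have hc := hG.hc
  have hq : QQ τ x := qq_closure (qq_c hτ hc) (qq_d hG.hd) hx2
  have hcz : (!![0, -τ⁻¹, 0; -τ, 0, 0; 0, 0, -1] : M3 F) *ᵥ zv τ = - zv τ := by
    ext i
    fin_cases i
    · simp [zv, Matrix.mulVec, dotProduct, Fin.sum_univ_three, hτ]
    · simp [zv, Matrix.mulVec, dotProduct, Fin.sum_univ_three]
    · simp [zv, Matrix.mulVec, dotProduct, Fin.sum_univ_three]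
  -- the key: `b` does not satisfy the condition
  have hbn : ¬ QQ τ b := by
    rintro ⟨_, h⟩
    rw [hb.2] at h
    rcases h with h | h
    · have h0 := congrFun h 0
      simp [zv, Matrix.mulVec, dotProduct, Fin.sum_univ_three] at h0
      exact hτ h0
    · have h0 := congrFun h 0
      simp [zv, Matrix.mulVec, dotProduct, Fin.sum_univ_three] at h0
      apply hm2
      linear_combination h0
  have hqc : QQ τ c := qq_c hτ hc
  have hcc := cc_eq hτ hc
  have hbb := bb_eq hb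
  rcases six hbb hcc (bcb_eq hb hc hτ) hx1 with h | h | h | h | h | h
  · rw [h]; exact Subgroup.one_mem _
  · rw [h] at hq; exact absurd hq hbn
  · rw [h]; exact Subgroup.subset_closure (Set.mem_singleton c)
  · exfalso
    rw [h] at hq
    have := qq_mul hq hqc
    rw [mul_assoc, hcc, mul_one] at this
    exact hbn this
  · exfalso
    rw [h] at hq
    have := qq_mul hqc hq
    rw [← mul_assoc, hcc, one_mul] at this
    exact hbn this
  · exfalso
    rw [h, bcb_eq hb hc hτ] at hq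
    have := qq_mul (qq_mul hqc hq) hqc
    have e : c * (c * b * c) * c = b := by
      calc c * (c * b * c) * c = (c * c) * b * (c * c) := by simp only [mul_assoc]
        _ = b := by rw [hcc, one_mul, mul_one]
    rw [e] at this
    exact hbn this

end Pool.Agent.H64.SCG
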