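import Pool.Agent.H64.SCG.EXB

/-!
Existence of the four generators and their relations (module EXR of the project SCG).
-/

namespace Pool.Agent.H64.SCG

open Pool.SCG Matrix

variable {F : Type} [Field F]

/-- Module EXR. -/
theorem exr_thm : Pool.SCG.EXRStmt := by
  intro F _ τ h2 h3 hτ
  set t : F := 2 * (3 : F)⁻¹ with ht
  have h3t : 3 * t = 2 := by
    rw [ht]; field_simp
  have hDe : (t • !![1, 1, 1; 1, 1, 1; 1, 1, 1] - 1 : M3 F) =
      !![t - 1, t, t; t, t - 1, t; t, t, t - 1] := by
    ext i j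
    fin_cases i <;> fin_cases j <;> simp
  obtain ⟨a, ha⟩ := exists_is (F := F) true !![0, -1, 0; -1, 0, 0; 0, 0, -1]
    (by simp [Matrix.det_fin_three])
  obtain ⟨b, hb⟩ := exists_is (F := F) false !![0, 0, -1; 0, -1, 0; -1, 0, 0]
    (by simp [Matrix.det_fin_three])
  obtain ⟨c, hc⟩ := exists_is (F := F) false !![0, -τ⁻¹, 0; -τ, 0, 0; 0, 0, -1]
    (by simp [Matrix.det_fin_three, hτ])
  obtain ⟨d, hd⟩ := exists_is (F := F) false (t • !![1, 1, 1; 1, 1, 1; 1, 1, 1] - 1) (by
    rw [hDe]
    simp [Matrix.det_fin_three]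
    linear_combination h3t)
  have hd' : Is d false !![t - 1, t, t; t, t - 1, t; t, t, t - 1] := by rw [← hDe]; exact hd
  have hne : ∀ {x : Cor F} {A : M3 F}, Is x false A → A ≠ 1 → x ≠ 1 := by
    intro x A hx hA h
    rw [h] at hx
    exact hA (hx.uniq is_one).2
  have ht0 : t ≠ 0 := by
    intro h
    rw [h, mul_zero] at h3t
    exact h2 h3t.symm
  refine ⟨a, b, c, d, ⟨ha, hb, hc, hd⟩, (is_one.ne_of_sign ha).symm, hne hb ?_, hne hc ?_,
    hne hd' ?_, ?_, bb_eq hb, cc_eq hτ hc, ?_, ?_, ?_, ?_⟩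
  · intro h
    have := congrFun (congrFun h 0) 0
    simp at this
  · intro h
    have := congrFun (congrFun h 0) 0
    simp at this
  · intro h
    have := congrFun (congrFun h 0) 1
    simp at this
    exact ht0 this
  · refine (outer_sq_iff ha).2 ?_
    ext i j
    fin_cases i <;> fin_cases j <;> simp
  · rw [inner_sq_iff hd']
    ext i j
    fin_cases i <;> fin_cases j <;>
      simp [Matrix.mul_apply, Fin.sum_univ_three] <;> linear_combination t * h3t
  · -- a, c
    refine Eq.symm ((comm_inner_outer_iff hc ha).2 ?_)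
    ext i j
    fin_cases i <;> fin_cases j <;>
      simp [Matrix.mul_apply, Fin.sum_univ_three, hτ]
  · -- a, d
    refine Eq.symm ((comm_inner_outer_iff hd' ha).2 ?_)
    ext i j
    fin_cases i <;> fin_cases j <;>
      simp [Matrix.mul_apply, Fin.sum_univ_three] <;> linear_combination (-t) * h3t
  · -- b, d
    refine (comm_inner_iff hb hd').2 ?_
    ext i j
    fin_cases i <;> fin_cases j <;>
      simp [Matrix.mul_apply, Fin.sum_univ_three]

end Pool.Agent.H64.SCG
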