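import Pool.Agent.H24.SCG.Base

/-!
The action of `Cor F` on `SL3 F` (module IOT of the project SCG).
-/

namespace Pool.Agent.H64.SCG

open Pool.SCG Matrix

variable {F : Type} [Field F]

theorem iota_inn (m : SL3 F) : iota F (inn m) = MulAut.conj m := by
  ext g : 1
  rw [iota_apply]
  simp [tw, MulAut.conj_apply]

theorem iota_outer (m : SL3 F) : iota F ⟨m, true⟩ = graphAut F * MulAut.conj m := by
  ext g : 1
  rw [iota_apply]
  rfl

theorem center_bot (hF : Good F) : Subgroup.center (SL3 F) = ⊥ := by
  rw [eq_bot_iff]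
  intro A hA
  rw [Matrix.SpecialLinearGroup.mem_center_iff] at hA
  obtain ⟨r, hr, hA⟩ := hA
  rw [Fintype.card_fin] at hr
  have h1 := hF.2 r hr
  rw [Subgroup.mem_bot]
  apply Subtype.ext
  rw [← hA, h1]
  simp

/-- an element whose trace differs from the trace of the inverse -/
theorem exists_trace (F : Type) [Field F] : ∃ g : SL3 F,
    (g : M3 F).trace = 1 ∧ (adjugate (g : M3 F)).trace = 0 := by
  refine ⟨⟨!![0, 0, 1; 1, 0, 0; 0, 1, 1], ?_⟩, ?_, ?_⟩
  · simp [Matrix.det_fin_three]
  · simp [Matrix.trace, Fin.sum_univ_three]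
  · simp [Matrix.trace, Fin.sum_univ_three, Matrix.adjugate_fin_three]

theorem outer_ne_one (m : SL3 F) : iota F ⟨m, true⟩ ≠ 1 := by
  intro h
  obtain ⟨g, h1, h2⟩ := exists_trace F
  have h3 : it (m * g * m⁻¹) = g := by
    have := congrArg (fun e : MulAut (SL3 F) => e g) h
    simpa [iota_apply, tw] using this
  have h4 : m * g * m⁻¹ = it g := by
    rw [← h3, it_it, h3]
  have h5 : ((m * g * m⁻¹ : SL3 F) : M3 F).trace = 1 := by
    rw [Matrix.SpecialLinearGroup.coe_mul, Matrix.trace_mul_comm,
      ← Matrix.SpecialLinearGroup.coe_mul, ← mul_assoc, inv_mul_cancel, one_mul]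
    exact h1
  rw [h4, coe_it, Matrix.trace_transpose, h2] at h5
  exact zero_ne_one h5

/-- Module IOT. -/
theorem iot_thm : Pool.SCG.IOTStmt := by
  intro F _ hF
  have hinn : ∀ m : SL3 F, iota F (inn m) = MulAut.conj m := iota_inn
  refine ⟨?_, ?_, hinn, center_bot hF⟩
  · rw [injective_iff_map_eq_one]
    rintro ⟨m, s⟩ h
    cases s with
    | true => exact absurd h (outer_ne_one m)
    | false =>
      have h1 : MulAut.conj m = 1 := by rw [← hinn m]; exact h
      have h2 : m ∈ Subgroup.center (SL3 F) := by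
        rw [Subgroup.mem_center_iff]
        intro g
        have h3 := congrArg (fun e : MulAut (SL3 F) => e g) h1
        simp only [MulAut.conj_apply, MulAut.one_apply] at h3
        calc g * m = (m * g * m⁻¹) * m := by rw [h3]
          _ = m * g := by rw [inv_mul_cancel_right]
      rw [center_bot hF, Subgroup.mem_bot] at h2
      rw [h2]
      rfl
  · apply le_antisymm
    · rintro e ⟨⟨m, s⟩, rfl⟩
      have hc : MulAut.conj m ∈ GraphExt F :=
        Subgroup.subset_closure (Or.inl ⟨m, rfl⟩)
      cases s with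
      | false =>
        have : iota F (⟨m, false⟩ : Cor F) = MulAut.conj m := hinn m
        rw [this]; exact hc
      | true =>
        rw [iota_outer]
        exact Subgroup.mul_mem _ (Subgroup.subset_closure (Or.inr rfl)) hc
    · rw [GraphExt, Subgroup.closure_le]
      rintro e (⟨m, rfl⟩ | h)
      · exact ⟨inn m, hinn m⟩
      · rw [Set.mem_singleton_iff] at h
        refine ⟨⟨1, true⟩, ?_⟩
        rw [iota_outer, h, map_one, mul_one]

end Pool.Agent.H64.SCG
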